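import Pool.Agent.N875.K15.Stm
import Pool.Agent.N50.K17.Glob2

/-!
# K15-2N: the necessary condition at the places over `2` (adaptation of `N50/K17`)
-/

set_option autoImplicit false

open NumberField IsDedekindDomain WithZero

namespace Pool.Agent.N327.K15

open Pool.Agent.N691.QB
open Pool.Agent.N50.K17 (valued_two valued_two_unr ram3 ram0 int_one)

section Loc

variable {L : Type} [Field L] {v : Valuation L ℤᵐ⁰}

/-- for every point `x + 9` is a square times `1 + 4 z` -/
theorem pt (h20 : (2 : L) ≠ 0) {u y : L} (hy : y ≠ 0) (h : y ^ 2 = u * (u + 9) * (u - 16)) :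
    ∃ s z : L, v z ≤ 1 ∧ s ≠ 0 ∧ (u + 9) * s ^ 2 = 1 + 4 * z := by
  have h40 : (4 : L) ≠ 0 := by
    rw [show (4 : L) = 2 ^ 2 by norm_num]
    exact pow_ne_zero _ h20
  have hy2 : y ^ 2 ≠ 0 := pow_ne_zero _ hy
  have hu : u ≠ 0 := by
    rintro rfl
    apply hy2
    rw [h]; ring
  have hu1 : u + 9 ≠ 0 := by
    intro h0
    apply hy2
    rw [h, h0]; ring
  have hu16 : u - 16 ≠ 0 := by
    intro h0
    apply hy2
    rw [h, h0]; ring
  have hvu : v u ≠ 0 := (v.ne_zero_iff).2 hu
  have hv4 : v (4 : L) ≠ 0 := (v.ne_zero_iff).2 h40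
  rcases le_total (v u) (v 4) with hc | hc
  · refine ⟨1, u / 4 + 2, ?_, one_ne_zero, ?_⟩
    · refine add_le1 ?_ ?_
      · rw [map_div₀]
        exact div_le_one_of_le₀ hc zero_le
      · have := int_le v 2
        exact_mod_cast this
    · field_simp
      ring
  · refine ⟨(u - 16) / y, -(4 / u), ?_, div_ne_zero hu16 hy, ?_⟩
    · rw [Valuation.map_neg, map_div₀]
      exact div_le_one_of_le₀ hc zero_le
    · rw [div_pow, h]
      field_simp
      ring

/-- parity of the valuation of `x`, unramified case -/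
theorem ptA (h2 : v 2 = exp (-1 : ℤ)) {u y : L} (hy : y ≠ 0)
    (h : y ^ 2 = u * (u + 9) * (u - 16)) : Even (log (v u)) := by
  have h20 := two_ne h2
  have hy2 : y ^ 2 ≠ 0 := pow_ne_zero _ hy
  have hu : u ≠ 0 := by
    rintro rfl
    apply hy2
    rw [h]; ring
  have hu1 : u + 9 ≠ 0 := by
    intro h0
    apply hy2
    rw [h, h0]; ring
  have hu16 : u - 16 ≠ 0 := by
    intro h0
    apply hy2
    rw [h, h0]; ring
  have hv9 : v (9 : L) = 1 := by
    have := int_one (L := L) (two_lt h2) (n := 9) (by norm_num)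
    exact_mod_cast this
  have hvu : v u ≠ 0 := (v.ne_zero_iff).2 hu
  have hvu1 : v (u + 9) ≠ 0 := (v.ne_zero_iff).2 hu1
  have hvu16 : v (u - 16) ≠ 0 := (v.ne_zero_iff).2 hu16
  have hlog : 2 * log (v y) = log (v u) + log (v (u + 9)) + log (v (u - 16)) := by
    have := congrArg (fun x => log (v x)) h
    simp only [map_pow, map_mul] at this
    rw [log_pow, log_mul (mul_ne_zero hvu hvu1) hvu16, log_mul hvu hvu1] at this
    simpa using this
  have hv16 : v (16 : L) = exp (-4 : ℤ) := by
    rw [show (16 : L) = 2 ^ 4 by norm_num, map_pow, h2, ← exp_nsmul]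
    norm_num
  set q := log (v u) with hq
  have hvq : v u = exp q := (exp_log hvu).symm
  have hy' : (y / u) ^ 2 = (u + 9) * (1 - 16 / u) := by
    field_simp
    linear_combination h
  have hv8 : v (8 : L) = exp (-3 : ℤ) := by
    rw [show (8 : L) = 2 ^ 3 by norm_num, map_pow, h2, ← exp_nsmul]
    norm_num
  have hv4 : v (4 : L) = exp (-2 : ℤ) := by
    rw [show (4 : L) = 2 ^ 2 by norm_num, map_pow, h2, ← exp_nsmul]
    norm_num
  rcases le_or_gt 0 q with hq0 | hq0
  · rcases hq0.eq_or_lt with h0 | h0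
    · rw [← h0]; exact ⟨0, rfl⟩
    · have e1 : v (u + 9) = v u := by
        apply Valuation.map_add_eq_of_lt_left
        rw [hv9, hvq, ← exp_zero, exp_lt_exp]
        exact h0
      have e2 : v (u - 16) = v u := by
        rw [sub_eq_add_neg]
        apply Valuation.map_add_eq_of_lt_left
        rw [Valuation.map_neg, hv16, hvq, exp_lt_exp]
        omega
      rw [e1, e2] at hlog
      exact ⟨log (v y) - q, by omega⟩
  · have e1 : v (u + 9) = 1 := by
      rw [Valuation.map_add_eq_of_lt_right, hv9]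
      rw [hv9, hvq, ← exp_zero, exp_lt_exp]
      exact hq0
    rw [e1, log_one, add_zero] at hlog
    have hcase : q = -1 ∨ q = -3 ∨ (q ≤ -2 ∧ q ≠ -3) := by omega
    rcases hcase with h1 | h1 | ⟨h1, h1'⟩
    · exfalso
      have he : v (u / 2) = 1 := by
        rw [map_div₀, hvq, h2, h1, ← exp_sub]
        norm_num
      have hW : v (2 + -((2 / (u / 2)) * (u + 9))) ≤ 1 := by
        refine add_le1 (two_lt h2).le ?_
        rw [Valuation.map_neg, map_mul, e1, mul_one, map_div₀, he, div_one]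
        exact (two_lt h2).le
      have hE := unit_add h2 he hW
      have h5 : (y / u) ^ 2 = 1 + 2 * (u / 2 + 2 * (2 + -((2 / (u / 2)) * (u + 9)))) := by
        rw [hy']
        field_simp
        ring
      have h7 := sq_form h2 hE.le h5
      rw [hE] at h7
      exact lt_irrefl _ h7
    · exfalso
      have h80 : (8 : L) ≠ 0 := by
        rw [show (8 : L) = 2 ^ 3 by norm_num]
        exact pow_ne_zero _ h20
      have he : v (u / 8) = 1 := by
        rw [map_div₀, hvq, hv8, h1, ← exp_sub]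
        norm_num
      have hx : v (-(1 / (u / 8) * (u + 9))) = 1 := by
        rw [Valuation.map_neg, map_mul, e1, mul_one, map_div₀, he, div_one, map_one]
      have hW : v (2 * (u / 8) + 2) ≤ 1 := by
        refine add_le1 ?_ (two_lt h2).le
        rw [map_mul, he, mul_one]
        exact (two_lt h2).le
      have hE := unit_add h2 hx hW
      have h5 : (y / u) ^ 2 = 1 + 2 * (-(1 / (u / 8) * (u + 9)) + 2 * (2 * (u / 8) + 2)) := by
        rw [hy']
        field_simp
        ring
      have h7 := sq_form h2 hE.le h5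
      rw [hE] at h7
      exact lt_irrefl _ h7
    · have h3 : q = -2 ∨ q = -4 ∨ q < -4 := by omega
      rcases h3 with h3 | h3 | h3
      · rw [h3]; exact ⟨-1, rfl⟩
      · rw [h3]; exact ⟨-2, rfl⟩
      · have e2 : v (u - 16) = exp (-4 : ℤ) := by
          rw [← hv16, ← Valuation.map_neg v 16, sub_eq_add_neg]
          apply Valuation.map_add_eq_of_lt_right
          rw [Valuation.map_neg, hv16, hvq, exp_lt_exp]
          exact h3
        rw [e2, log_exp] at hlog
        exact ⟨log (v y) + 2, by omega⟩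

end Loc

variable {K : Type} [Field K] [NumberField K] {m : ℤ} {r : K}

/-- the condition at the places over `2` -/
theorem main2 (hm : Squarefree m) (hr : r ^ 2 = (m : K))
    (hK : ∀ x : K, ∃ a b : ℚ, x = (a : K) + (b : K) * r)
    (w : HeightOneSpectrum (𝓞 K)) (hw : (2 : 𝓞 K) ∈ w.asIdeal) {a b : ℤ} (ha : Squarefree a)
    (hb : Squarefree b) {x y : w.adicCompletion K} (hy : y ≠ 0)
    (h : y ^ 2 = x * (x + 9) * (x - 16)) (hsa : IsSquare (x * (a : w.adicCompletion K)))
    (hsb : IsSquare ((x + 9) * (b : w.adicCompletion K))) :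
    (m % 4 = 1 → ¬ (2 : ℤ) ∣ a ∧ b % 4 = 1) ∧ (m % 4 = 3 → ¬ (2 : ℤ) ∣ b) ∧
    ((2 : ℤ) ∣ m → (b % 4 = 1 ∨ ((2 : ℤ) ∣ b ∧ ((b / 2) * (m / 2)) % 4 = 1))) := by
  have h2 := valued_two hK w hw
  have h20 : (2 : w.adicCompletion K) ≠ 0 := by
    intro h0
    rw [h0, map_zero] at h2
    rcases h2 with h2 | h2 <;> exact exp_ne_zero h2.symm
  obtain ⟨s, z, hz, hs, hsz⟩ := pt (v := Valued.v) h20 hy h
  obtain ⟨c, hc⟩ := hsb
  have hform : (s * c) ^ 2 = (b : w.adicCompletion K) * (1 + 4 * z) := by
    rw [← hsz]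
    linear_combination (-s ^ 2) * hc
  have hρ : (algebraMap K (w.adicCompletion K) r) ^ 2 = (m : w.adicCompletion K) := by
    rw [← map_pow, hr, map_intCast]
  have hx : x ≠ 0 := by
    rintro rfl
    apply hy
    have : y ^ 2 = 0 := by rw [h]; ring
    exact pow_eq_zero_iff (by norm_num) |>.1 this
  refine ⟨fun h4 => ?_, fun h4 => ?_, fun h4 => ?_⟩
  · have hv2 := valued_two_unr h4 hr hK w hw
    refine ⟨?_, b_form hv2 hb hz hform⟩
    have hev := ptA hv2 hy h
    apply odd_of_even_log hv2 ha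
    obtain ⟨c, hc'⟩ := hsa
    have h3 := congrArg (fun q => log (Valued.v q)) hc'
    have hva : Valued.v (a : w.adicCompletion K) ≠ 0 := v_ne hv2 ha
    have hvx : Valued.v x ≠ (0 : ℤᵐ⁰) := (Valuation.ne_zero_iff _).2 hx
    have hvc : Valued.v c ≠ (0 : ℤᵐ⁰) := by
      intro h0
      have := congrArg (fun q => Valued.v q) hc'
      simp only [map_mul, h0, mul_zero] at this
      exact mul_ne_zero hvx hva this
    simp only [map_mul] at h3
    rw [log_mul hvx hva, log_mul hvc hvc] at h3
    obtain ⟨e, he⟩ := hev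
    exact ⟨log (Valued.v c) - e, by omega⟩
  · exact ram3 h2 h20 h4 hρ hb hz hform
  · obtain ⟨n, rfl, hn⟩ := odd_of_two_dvd hm h4
    by_cases hb2 : (2 : ℤ) ∣ b
    · obtain ⟨d, rfl, hd⟩ := odd_of_two_dvd hb hb2
      right
      refine ⟨hb2, ?_⟩
      have e1 : 2 * d / 2 = d := by omega
      have e2 : 2 * n / 2 = n := by omega
      rw [e1, e2]
      have hdn : (d * n) % 2 = 1 := by
        rw [Int.mul_emod, hd, hn]
        norm_num
      refine ram0 (t := algebraMap K (w.adicCompletion K) r * (s * c) / 2) h2 h20 hn hρ hdn hz ?_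
      rw [div_pow, mul_pow, hρ, hform]
      push_cast
      field_simp
    · left
      exact ram0 h2 h20 hn hρ (by omega) hz hform

open Pool.Agent.N875.K15 in
/-- K15-2N -/
theorem t_2N : S_2N := by
  intro m hm hm1 K _ _ r hQ w hw a b ha hb hL
  obtain ⟨x, y, hy, h, hsa, hsb⟩ := hL
  refine main2 hm hQ.hr hQ.hK w hw ha hb hy (by rw [h]; push_cast; ring) ?_ ?_
  · have e : x - ((0 : ℤ) : w.adicCompletion K) = x := by push_cast; ring
    rwa [e] at hsa
  · have e : x - ((-9 : ℤ) : w.adicCompletion K) = x + 9 := by push_cast; ring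
    rwa [e] at hsb

end Pool.Agent.N327.K15
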